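import Pool.Agent.N856.JT.Two

/-!
# The 2-part of the Birch and Swinnerton-Dyer formula for any finite number of twists of `X_0(15)` at once

`E_{-n}` is the quadratic twist by `-n` of the modular curve `X_0(15)`, which is semistable and has no
complex multiplication. Let `𝒩` be the class of the squarefree `n ≡ 3 mod 4` such that `3` is not inert
and `5` is not split in `ℚ(√-n)` (all the odd negative fundamental discriminants `-n` with this property),
and `𝒟` the class of the squarefree `d ≡ 1 mod 4` such that `3` and `5` split in `ℚ(√d)`, or `d = 1`.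
For `n ∈ 𝒩`, `d ∈ 𝒟` the squarefree part `d n / gcd(d, n)²` of `d n` is in `𝒩`; it gives the twist of
`E_{-n}` by `√d`. We say that a curve `E_{-n}` is good if `E_{-n}(ℚ)` is finite and
`Ш(E_{-n}/ℚ)[2] = 0`.

Let `T` be any finite set of curves `E_{-c}`, `c ∈ 𝒩`, and let `d` run over `𝒟`. The events that the
twist of `E_{-c}` by `√d` is good, `c ∈ T`, are asymptotically independent of probability
`η = (1 - 1/2) (1 - 1/4) (1 - 1/8) ⋯ = 0.2888…`: for every `V ⊆ T` the twists which are good are those
of the elements of `V` for a set of `d` of natural density exactly `η ^ |V| (1 - η) ^ |T \ V|`. For the good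
twists the 2-part of the formula holds: the equation is minimal, `L(E, s)` is entire, `L(E, 1) ≠ 0`, `E(ℚ)`
is finite, `Ш(E/ℚ)[2^∞] = 0`, and the order of `Ш(E/ℚ)` predicted by the formula is a rational number
which is a unit at two. For the twists which are not good the predicted order is zero or even, in
accordance with the 2-part of the formula: it is the product of a 2-adic unit and of the square of an even
integer.

The same holds if `T` is a finite subset of `𝒟` and `n` runs over `𝒩`, for the curves `E_{-c n}`,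
`c ∈ T`. So all the `k` curves satisfy the 2-part with `L(E, 1) ≠ 0` for the natural density `η ^ k`, and
the number of the good ones is asymptotically binomially distributed. There is no condition of
coprimality.

New is the joint law for the natural density, with the module `Pool.Agent.N856.JL.All` for all `n` and the
parts for the `n` prime to the `c` of helpers 588, 763, 789, 814 and 856 (after projects GB of helper916
and QJ of helper426) and the extension to the multiples of `3` and `5` in `Pool.Agent.N856.JT.Cls`. The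
theorem for one curve is that of helpers 875, 969 and others (`MP_9c97e9_nt/TwoPartTwistsX15Neg`).
-/

set_option autoImplicit false

open WeierstrassCurve MeasureTheory Filter Topology

namespace Pool.Agent.Results.MP_4a9ea6_nt.JointTwoPartX15

open scoped Classical

open Pool.Agent.TH841.SH.D (Sha)

/-- The quadratic twist of `X_0(15)` by `m ≡ 1` modulo `4`:
`y² + x y = x³ - ((7 m + 1)/4) x² - 9 m² x`.  For `m = 1` this is the curve
`y² + x y = x³ - 2 x² - 9 x`, which becomes `y² + x y + y = x³ + x² - 10 x - 10` if `x` is replaced by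
`x + 1`. -/
def twist (m : ℤ) : WeierstrassCurve ℤ := ⟨1, -((7 * m + 1) / 4), 0, -(9 * m ^ 2), 0⟩

/-- The twist `E_{-n}` of `X_0(15)`. -/
def E (n : ℕ) : WeierstrassCurve ℤ := twist (-(n : ℤ))

/-- The curve given by the equation of `W` over the ring `R`. -/
abbrev base (W : WeierstrassCurve ℤ) (R : Type) [CommRing R] : WeierstrassCurve R :=
  W.map (Int.castRingHom R)

/-- `W` is a global minimal equation: `Δ ≠ 0` and `|Δ|` is minimal among the integral equations of the
same curve over `ℚ`. -/
def Minimal (W : WeierstrassCurve ℤ) : Prop :=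
  W.Δ ≠ 0 ∧ ∀ (W' : WeierstrassCurve ℤ) (C : VariableChange ℚ), C • base W ℚ = base W' ℚ →
    |W.Δ| ≤ |W'.Δ|

/-- The number of the affine points modulo `p`. -/
noncomputable def pts (W : WeierstrassCurve ℤ) (p : ℕ) : ℕ :=
  Nat.card {P : ZMod p × ZMod p // (base W (ZMod p)).toAffine.Equation P.1 P.2}

/-- `a_p = p + 1 - #W(𝔽_p)`, the points counted with the point at infinity. -/
noncomputable def a (W : WeierstrassCurve ℤ) (p : ℕ) : ℤ := p - pts W p

/-- `L` is the L-function of the minimal equation `W`: it is entire, and for `Re s > 3/2` it is given by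
the Euler product with the factors `(1 - a_p p^(-s) + p^(1 - 2 s))⁻¹` if `p` does not divide `Δ` and
`(1 - a_p p^(-s))⁻¹` otherwise. -/
def IsL (W : WeierstrassCurve ℤ) (L : ℂ → ℂ) : Prop :=
  Differentiable ℂ L ∧ ∀ s : ℂ, 3 / 2 < s.re →
    HasProd (fun p : Nat.Primes => (1 - (a W p : ℂ) * ((p : ℕ) : ℂ) ^ (-s) +
      (if ((p : ℕ) : ℤ) ∣ W.Δ then 0 else ((p : ℕ) : ℂ) ^ (1 - 2 * s)))⁻¹) (L s)

/-- The point `P` of `W` over `ℚ_p` reduces to a singular point of the curve modulo `p`: the coordinates
are integral and both partial derivatives of `y² + a₁ x y + a₃ y - x³ - a₂ x² - a₄ x - a₆` are in the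
maximal ideal. -/
def SingularReduction (W : WeierstrassCurve ℤ) (p : ℕ) [Fact p.Prime]
    (P : (base W ℚ_[p]).toAffine.Point) : Prop :=
  ∃ x y h, P = Affine.Point.some x y h ∧ ‖x‖ ≤ 1 ∧ ‖y‖ ≤ 1 ∧
    ‖W.a₁ * y - (3 * x ^ 2 + 2 * W.a₂ * x + W.a₄)‖ < 1 ∧ ‖2 * y + W.a₁ * x + W.a₃‖ < 1

/-- `c p` is the Tamagawa number `[W(ℚ_p) : W⁰(ℚ_p)]` for all primes `p`, where `W⁰(ℚ_p)` is the subgroup
of the points which do not have singular reduction; it is `1` if `p` does not divide `Δ`. -/
def IsTamagawa (W : WeierstrassCurve ℤ) (c : ℕ → ℕ) : Prop :=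
  ∀ (p : ℕ) [Fact p.Prime], (∃ H : AddSubgroup (base W ℚ_[p]).toAffine.Point,
    (∀ P, P ∈ H ↔ ¬ SingularReduction W p P) ∧ H.index = c p) ∧ (¬ (p : ℤ) ∣ W.Δ → c p = 1)

/-- The product of the Tamagawa numbers. -/
noncomputable def Tam (W : WeierstrassCurve ℤ) (c : ℕ → ℕ) : ℕ := ∏ p ∈ W.Δ.natAbs.primeFactors, c p

/-- `4 x³ + b₂ x² + 2 b₄ x + b₆ = (2 y + a₁ x + a₃)²`. -/
def cubic (W : WeierstrassCurve ℤ) (x : ℝ) : ℝ := 4 * x ^ 3 + W.b₂ * x ^ 2 + 2 * W.b₄ * x + W.b₆

/-- `Ω = ∫_{W(ℝ)} |ω|` with `ω = dx / (2 y + a₁ x + a₃)`, as an integral over `x`: two real points lie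
over each `x` with `cubic x > 0`. -/
noncomputable def Omega (W : WeierstrassCurve ℤ) : ℝ :=
  2 * ∫ x in {x : ℝ | 0 < cubic W x}, 1 / √(cubic W x)

/-- The order of the torsion subgroup of `W(ℚ)`. -/
noncomputable def torsOrder (W : WeierstrassCurve ℤ) : ℕ :=
  Nat.card (AddCommGroup.torsion (base W ℚ).toAffine.Point)

/-- The order of the Tate-Shafarevich group predicted by the formula in rank zero, for the value `l` of
the L-function at `s = 1` and the Tamagawa numbers `c`: `l #W(ℚ)_tors² / (Ω ∏ c_p)`. -/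
noncomputable def anOrder (W : WeierstrassCurve ℤ) (l : ℂ) (c : ℕ → ℕ) : ℂ :=
  l * (torsOrder W : ℂ) ^ 2 / ((Omega W : ℝ) * (Tam W c : ℂ))

/-- The 2-part of the formula for `W` over `ℚ`, in the case that the predicted order of `Ш` is a unit at
two: `W` is minimal, `L(W, s)` is entire, `L(W, 1) ≠ 0`, `W(ℚ)` is finite, the 2-primary part of
`Ш(W/ℚ)` is zero, and the predicted order of `Ш` is a rational number which is a unit at two. -/
def TwoPart (W : WeierstrassCurve ℤ) : Prop :=
  Minimal W ∧ Finite (base W ℚ).toAffine.Point ∧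
  (∀ (n : ℕ) (x : Sha (base W ℚ)), 2 ^ n • x = 0 → x = 0) ∧
  ∃ (L : ℂ → ℂ) (c : ℕ → ℕ) (z : ℚ), IsL W L ∧ L 1 ≠ 0 ∧ IsTamagawa W c ∧ 0 < Tam W c ∧
    0 < Omega W ∧ 0 < torsOrder W ∧ anOrder W (L 1) c = z ∧ z ≠ 0 ∧ padicValRat 2 z = 0

/-- The formula predicts that the order of `Ш(W/ℚ)` is even (or that the rank is positive): `W` is
minimal, `L(W, s)` is entire, and `L(W, 1) #W(ℚ)_tors² / (Ω ∏ c_p)` is the product of a rational number
which is a unit at two and of the square of an even integer. -/
def EvenOrder (W : WeierstrassCurve ℤ) : Prop :=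
  Minimal W ∧
  ∃ (L : ℂ → ℂ) (c : ℕ → ℕ) (w : ℚ) (y : ℤ), IsL W L ∧ IsTamagawa W c ∧ 0 < Tam W c ∧
    0 < Omega W ∧ 0 < torsOrder W ∧ anOrder W (L 1) c = ((w * (y : ℚ) ^ 2 : ℚ) : ℂ) ∧
    w ≠ 0 ∧ padicValRat 2 w = 0 ∧ Even y

/-- The group `E_{-n}(ℚ)` is finite and `Ш(E_{-n}/ℚ)` has no element of order two. -/
def NoSelmer (n : ℕ) : Prop :=
  Finite (base (E n) ℚ).toAffine.Point ∧ ∀ x : Sha (base (E n) ℚ), 2 • x = 0 → x = 0

/-- The class of the squarefree `n ≡ 3` modulo `4` such that `3` is not inert and `5` is not split in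
`ℚ(√-n)`: all the odd negative fundamental discriminants `-n` with this property. -/
def Twist (n : ℕ) : Prop :=
  Squarefree n ∧ n % 4 = 3 ∧ n % 3 ≠ 1 ∧ (n % 5 = 0 ∨ n % 5 = 2 ∨ n % 5 = 3)

/-- The class of the squarefree `d ≡ 1` modulo `4` such that `3` and `5` split in `ℚ(√d)` or `d = 1`: all
the odd positive fundamental discriminants `d` with this property, and `1`. -/
def Disc (d : ℕ) : Prop := Squarefree d ∧ d % 4 = 1 ∧ d % 3 = 1 ∧ (d % 5 = 1 ∨ d % 5 = 4)

/-- The squarefree part of `c n`, for squarefree `c` and `n`. -/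
def mul (c n : ℕ) : ℕ := c * n / Nat.gcd c n ^ 2

/-- `n` has the pattern `V ⊆ T`: among the curves `E_{-c n}`, `c ∈ T`, exactly those with `c ∈ V` have
finitely many rational points and no element of order two in `Ш`; for these the 2-part of the formula
holds, with a predicted order of `Ш` which is a unit at two, and for the others the formula predicts that
the order of `Ш` is even or the rank positive. -/
def Pattern (T V : Finset ℕ) (n : ℕ) : Prop :=
  ∀ c ∈ T, (NoSelmer (mul c n) ↔ c ∈ V) ∧ (c ∈ V → TwoPart (E (mul c n))) ∧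
    (c ∉ V → EvenOrder (E (mul c n)))

/-- the limit `(1 - 1/2) (1 - 1/4) (1 - 1/8) ⋯` -/
noncomputable def eta : ℝ := ∏' i : ℕ, (1 - (1 / 2 : ℝ) ^ (i + 1))

/-- the number of the `m ≤ X` with the property `P` -/
noncomputable def count (P : ℕ → Prop) (X : ℕ) : ℕ := ((Finset.Icc 1 X).filter fun m => P m).card

/-- among the numbers with the property `P`, those with the property `Q` have natural density `δ` -/
def HasDensity (P Q : ℕ → Prop) (δ : ℝ) : Prop :=
  Tendsto (fun X : ℕ => (count (fun m => P m ∧ Q m) X : ℝ) / (count P X : ℝ)) atTop (𝓝 δ)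

/-- **The 2-part of the formula for a finite number of twists at once.** -/
theorem result {T V : Finset ℕ} (hV : V ⊆ T) :
    ((∀ c ∈ T, Twist c) → HasDensity Disc (Pattern T V) (eta ^ V.card * (1 - eta) ^ (T \ V).card)) ∧
    ((∀ c ∈ T, Disc c) → HasDensity Twist (Pattern T V) (eta ^ V.card * (1 - eta) ^ (T \ V).card)) :=
  Pool.Agent.N856.JT.Two.main hV

end Pool.Agent.Results.MP_4a9ea6_nt.JointTwoPartX15
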