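import Pool.Agent.N818.TD.Mod

/-!
# The 2-part of the strong Birch and Swinnerton-Dyer conjecture over `ℚ` for the quadratic twists of
# `X_0(49)` by ALL squarefree `D ≡ 1 mod 4` prime to `7`, and its exact natural density

`D ≥ 1` is any squarefree number with `D ≡ 1 mod 4` and `7 ∤ D`, no condition is imposed on its prime
factors, and `E_D` is the quadratic twist by `D` of `X_0(49) : y² + x y = x³ - x² - 2 x - 1`, the curve
`y² + x y = x³ - (3 D + 1) / 4 x² - 2 D² x - D³`.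
Let `z = #E_D(ℚ)_tors² L(E_D, 1) / (Ω ∏ c_p)`, which is zero or the order of `Ш(E_D/ℚ)` according to
the conjecture. The theorem says, with no hypothesis on the rank or on `Ш`:
* `L(E_D, s)` is entire, the equation of `E_D` is minimal, the order of the torsion subgroup is twice
  an odd number, and `∏ c_p = 2 ^ (1 + a + 2 b)`, `a` the number of the prime factors of `D` which are
  inert in `ℚ(√-7)`, `b` the number of those which split;
* `z` is an algebraic number which is integral at all the primes above two;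
* `z` is a unit at one prime above two iff it is so at all of them iff `E_D(ℚ)` is finite and
  `Ш(E_D/ℚ)` has no element of order two iff `D` has no factorisation `D = d d'` in `ℤ[ω]`,
  `ω = (1 + √-7) / 2`, with `d ≡ 1 mod ω²`, `d ≠ 1`, such that `d` is a square modulo every prime
  dividing `d'` and `-√-7 d'` is a square modulo every prime dividing `d`;
* in this case `L(E_D, 1) ≠ 0` and the 2-primary part of `Ш(E_D/ℚ)` is zero, so that the 2-part of the
  conjecture holds;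
* among all the squarefree `D ≤ X`, `D ≡ 1 mod 4`, `7 ∤ D`, the proportion of the `D` for which all of
  this holds tends to `c / 2`, `c = ∏_{i ≥ 0} (1 - 2^{-(2i+1)}) = 0.4194...`.

Proof: the value `L(E_D, 1)` by the induction over the sets of the prime elements of `K = ℚ(√-7)` of
`Pool/Agent/R426/QD`, for all the elements `≡ 1 mod 4` of the ring of integers; a 2-descent over `K`;
the passage from `K` to `ℚ` in both directions by complex multiplication (`Pool/Agent/N818/TC`); the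
Euler product, the Tamagawa numbers for prime factors of `D` in all classes (`Pool/Agent/N818/TD`,
where the subgroup of the points of nonsingular reduction is found by a valuation argument for three
points on a line, since the descent map does not detect it at the primes `≡ 3 mod 4`); the
proportion (`Pool/Agent/N973/ND`, joint work of helpers 973, 713, 897, 226 and 186).
The starting file `TwoPartTwistsX49` treats the `D` all whose prime factors are `1 mod 4` (density zero),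
with a proportion in a still thinner family.
-/

set_option autoImplicit false

open NumberField NumberField.InfinitePlace IsDedekindDomain WeierstrassCurve MeasureTheory

namespace Pool.Agent.Results.MP_4a9ea6_nt.TwoPartDensityX49

open Pool.Agent.TH841.NF.D (Sha)
open Pool.Agent.TH841.SH.D (Pt)

/-- The quadratic twist by `D ≡ 1 mod 4` of `X_0(49) : y² + x y = x³ - x² - 2 x - 1`. -/
def twist (D : ℕ) : WeierstrassCurve ℤ := ⟨1, -((3 * D + 1) / 4), 0, -2 * D ^ 2, -D ^ 3⟩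

/-- The curve over `ℚ`. -/
abbrev E (D : ℕ) : WeierstrassCurve ℚ := (twist D).map (Int.castRingHom ℚ)

/-- The equation is minimal at the place `v`: no change of variables over `ℚ` that keeps the
coefficients integral at `v` decreases the order of the discriminant. -/
def MinimalAt (W : WeierstrassCurve ℚ) (v : HeightOneSpectrum (𝓞 ℚ)) : Prop :=
  ∀ C : VariableChange ℚ, v.valuation ℚ (C • W).a₁ ≤ 1 → v.valuation ℚ (C • W).a₂ ≤ 1 →
    v.valuation ℚ (C • W).a₃ ≤ 1 → v.valuation ℚ (C • W).a₄ ≤ 1 → v.valuation ℚ (C • W).a₆ ≤ 1 →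
    v.valuation ℚ (C • W).Δ ≤ v.valuation ℚ W.Δ

/-- `W⁰(ℚ_v)`, the group of the points of `W` over the completion `ℚ_v` with nonsingular reduction:
the point at infinity and the points `(x, y)` where `x` is not integral, or one of the partial
derivatives of `y² + a₁ x y + a₃ y - x³ - a₂ x² - a₄ x - a₆` is a unit at `(x, y)`.
Here `Pt W ℚ_v` is the group of the points of `W` over `ℚ_v`. -/
noncomputable def nonsing (W : WeierstrassCurve ℚ) (v : HeightOneSpectrum (𝓞 ℚ)) :
    AddSubgroup (Pt W (v.adicCompletion ℚ)) :=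
  AddSubgroup.closure {P | ∀ x y h, P = Affine.Point.some x y h →
    1 < Valued.v x ∨
    Valued.v ((W.baseChange (v.adicCompletion ℚ)).a₁ * y -
      (3 * x ^ 2 + 2 * (W.baseChange (v.adicCompletion ℚ)).a₂ * x +
        (W.baseChange (v.adicCompletion ℚ)).a₄)) = 1 ∨
    Valued.v (2 * y + (W.baseChange (v.adicCompletion ℚ)).a₁ * x +
      (W.baseChange (v.adicCompletion ℚ)).a₃) = 1}

/-- The Tamagawa number `c_v = [W(ℚ_v) : W⁰(ℚ_v)]` of a minimal equation. -/
noncomputable def c (W : WeierstrassCurve ℚ) (v : HeightOneSpectrum (𝓞 ℚ)) : ℕ :=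
  (nonsing W v).index

/-- The product of the Tamagawa numbers. -/
noncomputable def Tam (W : WeierstrassCurve ℚ) : ℕ := ∏ᶠ v : HeightOneSpectrum (𝓞 ℚ), c W v

/-- `4 x³ + b₂ x² + 2 b₄ x + b₆ = (2 y + a₁ x + a₃)²`. -/
def cubic (W : WeierstrassCurve ℤ) (x : ℝ) : ℝ := 4 * x ^ 3 + W.b₂ * x ^ 2 + 2 * W.b₄ * x + W.b₆

/-- `Ω = ∫_{W(ℝ)} |ω|` with `ω = dx / (2 y + a₁ x + a₃)`, as an integral over `x`: two real points lie
over each `x` with `cubic x > 0`. -/
noncomputable def Omega (W : WeierstrassCurve ℤ) : ℝ :=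
  2 * ∫ x in {x : ℝ | 0 < cubic W x}, 1 / √(cubic W x)

open Classical in
/-- The order of the torsion subgroup of `W(K)`. -/
noncomputable def torsOrder {K : Type} [Field K] (W : WeierstrassCurve K) : ℕ :=
  Nat.card (AddCommGroup.torsion W.toAffine.Point)

/-- The order of the Tate-Shafarevich group predicted by the formula, for the value `l` of the
L-function of `E_D` at `s = 1`: `#E_D(ℚ)_tors² l / (Ω ∏ c_v)`. -/
noncomputable def anOrder (D : ℕ) (l : ℂ) : ℂ :=
  l * (torsOrder (E D) : ℂ) ^ 2 / ((Omega (twist D) : ℝ) * (Tam (E D) : ℂ))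

/-- The class: `D` is squarefree, `D ≡ 1 mod 4` and `7 ∤ D`. -/
def Family (D : ℕ) : Prop := Squarefree D ∧ D % 4 = 1 ∧ ¬ 7 ∣ D

open Classical in
/-- The prime factors of `D` which are inert in `ℚ(√-7)`. -/
noncomputable def inert (D : ℕ) : Finset ℕ := D.primeFactors.filter fun p => ¬ IsSquare (-7 : ZMod p)

open Classical in
/-- The prime factors of `D` which split in `ℚ(√-7)`. -/
noncomputable def split (D : ℕ) : Finset ℕ := D.primeFactors.filter fun p => IsSquare (-7 : ZMod p)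

/-- `E_D(ℚ)` is finite and `Ш(E_D/ℚ)` has no element of order two. -/
def RankZeroShaTwo (D : ℕ) : Prop :=
  Finite (E D).toAffine.Point ∧ ∀ x : Sha (E D), x + x = 0 → x = 0

/-- The 2-part of the conjecture, in the case that `z` is a unit at two: `L(E_D, s)` has an entire
continuation `Λ` with `Λ 1 ≠ 0`, `E_D(ℚ)` is finite, the 2-primary part of `Ш` is zero, and the
predicted order of `Ш` is a unit at all the primes above two. -/
def TwoPart (D : ℕ) : Prop :=
  Finite (E D).toAffine.Point ∧ (∀ (n : ℕ) (x : Sha (E D)), 2 ^ n • x = 0 → x = 0) ∧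
    ∃ Λ : ℂ → ℂ, Differentiable ℂ Λ ∧ (∀ s : ℂ, 2 < s.re → Λ s = (E D).LSeries s) ∧ Λ 1 ≠ 0 ∧
      ∃ m : ℤ, Odd m ∧ _root_.IsIntegral ℤ (m * anOrder D (Λ 1)) ∧
        _root_.IsIntegral ℤ (m * (anOrder D (Λ 1))⁻¹)

/-- The ring `ℤ[ω]`, `ω = (1 + √-7)/2`, that is `ω² = ω - 2`. -/
abbrev O : Type := QuadraticAlgebra ℤ (-2) 1

/-- `ω = (1 + √-7)/2`. -/
def ω : O := ⟨0, 1⟩

/-- `D = d d'` in `ℤ[ω]` with `d ≡ 1 mod ω²`, `d ≠ 1`, such that `d` is a square modulo every prime
dividing `d'`, and `-√-7 d'` is a square modulo every prime dividing `d` (`√-7 = 2 ω - 1`). -/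
def Factorisation (D : ℕ) : Prop := ∃ d d' : O, (D : O) = d * d' ∧ ω ^ 2 ∣ d - 1 ∧ d ≠ 1 ∧
  (∀ p : O, Prime p → p ∣ d' → ∃ x : O, p ∣ x ^ 2 - d) ∧
  ∀ p : O, Prime p → p ∣ d → ∃ x : O, p ∣ x ^ 2 + (2 * ω - 1) * d'

open Classical in
/-- The number of the `D ≤ X` of the class with the property `Q`. -/
noncomputable def num (Q : ℕ → Prop) (X : ℕ) : ℕ :=
  ((Finset.Icc 1 X).filter fun D => Family D ∧ Q D).card

/-- `Q` has the natural density `θ` in the class. -/
def HasProportion (Q : ℕ → Prop) (θ : ℝ) : Prop :=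
  Filter.Tendsto (fun X : ℕ => (num Q X : ℝ) / (num (fun _ => True) X : ℝ)) Filter.atTop (nhds θ)

section proof

open Pool.Agent.Y698 Pool.Agent.N818.TD
open Pool.Agent.N818.TC (Rz rz_prop)

lemma E_eq {D j : ℕ} (hj : D = 1 + 4 * j) : E D = AX ℚ j := twZ_map hj ℚ

lemma cubic_eq {D j : ℕ} (hj : D = 1 + 4 * j) (x : ℝ) :
    cubic (twist D) x = psD (1 + 4 * j) x := by
  have h1 : (3 * (D : ℤ) + 1) / 4 = 1 + 3 * j := by
    rw [hj]
    push_cast
    omega
  unfold cubic twist WeierstrassCurve.b₂ WeierstrassCurve.b₄ WeierstrassCurve.b₆ psD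
  simp only
  rw [h1, hj]
  push_cast
  ring

lemma real_eq {D j : ℕ} (hj : D = 1 + 4 * j) : Omega (twist D) =
    ∫ x in {x : ℝ | 0 < psD (1 + 4 * j) x}, 2 / Real.sqrt (psD (1 + 4 * j) x) := by
  unfold Omega
  simp only [cubic_eq hj]
  rw [← integral_const_mul]
  congr 1
  funext x
  ring

lemma nr_rat : nrRealPlaces ℚ = 1 ∧ nrComplexPlaces ℚ = 0 := by
  have h := InfinitePlace.card_add_two_mul_card_eq_rank ℚ
  rw [Module.finrank_self] at h
  omega

theorem an_eq {D j : ℕ} (hj : D = 1 + 4 * j) (l : ℂ) :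
    anOrder D l = Pool.Agent.Y698.SG.quoT ℚ j l := by
  unfold anOrder torsOrder
  rw [E_eq hj, real_eq hj]
  unfold Pool.Agent.Y698.SG.quoT Pool.Agent.Y698.SG.tnum
  have hT : Tam (Pool.Agent.Y698.AX ℚ j) =
    ∏ᶠ v, Pool.Agent.Y698.tam (Pool.Agent.Y698.AX ℚ j) v := rfl
  rw [hT, Rat.numberField_discr, nr_rat.1, nr_rat.2, pow_one, pow_zero]
  generalize (∏ᶠ v, Pool.Agent.Y698.tam (Pool.Agent.Y698.AX ℚ j) v : ℕ) = t
  simp

theorem exps (D : ℕ) : ∑ p ∈ D.primeFactors, ee p = (inert D).card + 2 * (split D).card := by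
  classical
  have h1 : ∑ p ∈ D.primeFactors, ee p = ∑ p ∈ D.primeFactors.filter
      (fun p => IsSquare (-7 : ZMod p)), ee p + ∑ p ∈ D.primeFactors.filter
        (fun p => ¬ IsSquare (-7 : ZMod p)), ee p :=
    (Finset.sum_filter_add_sum_filter_not _ _ _).symm
  rw [h1, add_comm]
  congr 1
  · rw [Finset.sum_congr rfl (g := fun _ => 1) (fun p hp => by
      unfold ee
      rw [if_neg (Finset.mem_filter.1 hp).2]), Finset.sum_const, smul_eq_mul, mul_one]
    rfl
  · rw [Finset.sum_congr rfl (g := fun _ => 2) (fun p hp => by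
      unfold ee
      rw [if_pos (Finset.mem_filter.1 hp).2]), Finset.sum_const, smul_eq_mul, mul_comm]
    rfl

theorem two_iff {D j : ℕ} (hj : D = 1 + 4 * j) :
    RankZeroShaTwo D ↔ Rz (Pool.Agent.N818.TC.A D) (Pool.Agent.N818.TC.B D) := by
  rw [same hj]
  unfold RankZeroShaTwo
  rw [E_eq hj]
  simp only [two_nsmul]

theorem sha_pow {D : ℕ} (h : ∀ x : Sha (E D), x + x = 0 → x = 0) (n : ℕ) :
    ∀ x : Sha (E D), 2 ^ n • x = 0 → x = 0 := by
  induction n with
  | zero =>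
    intro x hx
    rwa [pow_zero, one_smul] at hx
  | succ n ih =>
    intro x hx
    apply h
    apply ih
    rw [← two_nsmul, ← mul_smul, ← pow_succ]
    exact hx

theorem core {D : ℕ} (h : Family D) :
    (∀ v : HeightOneSpectrum (𝓞 ℚ), MinimalAt (E D) v) ∧
    (∃ t : ℕ, Odd t ∧ torsOrder (E D) = 2 * t) ∧
    Tam (E D) = 2 ^ (1 + (inert D).card + 2 * (split D).card) ∧
    (RankZeroShaTwo D ↔ ¬ Factorisation D) ∧
    ∃ Λ : ℂ → ℂ, Differentiable ℂ Λ ∧
      (∀ s : ℂ, 2 < s.re → Λ s = (E D).LSeries s) ∧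
      (∃ m : ℤ, Odd m ∧ _root_.IsIntegral ℤ (m * anOrder D (Λ 1))) ∧
      (∀ (Γ : Type) [LinearOrderedCommGroupWithZero Γ] (v : Valuation ℂ Γ), v 2 < 1 →
        v (anOrder D (Λ 1)) ≤ 1 ∧ (v (anOrder D (Λ 1)) = 1 ↔ RankZeroShaTwo D)) ∧
      (RankZeroShaTwo D → Λ 1 ≠ 0 ∧ ∃ m : ℤ, Odd m ∧ _root_.IsIntegral ℤ (m * anOrder D (Λ 1)) ∧
        _root_.IsIntegral ℤ (m * (anOrder D (Λ 1))⁻¹)) := by
  classical
  obtain ⟨hsq, h4, h7⟩ := h
  obtain ⟨j, hj⟩ : ∃ j, D = 1 + 4 * j := ⟨D / 4, by omega⟩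
  have hf5 : Fact (Nat.Prime 5) := ⟨by norm_num⟩
  have hM : IsCyclotomicExtension {5} ℚ (CyclotomicField 5 ℚ) := cyc_inst 5
  have hGq := gq_of h7
  have hpr := prod_eq hsq hj
  have hE := E_eq hj
  have hst : torsOrder (E D) = Pool.Agent.Y698.SG.tnum (Pool.Agent.Y698.AX ℚ j) := by
    unfold torsOrder Pool.Agent.Y698.SG.tnum
    rw [hE]
  have htam : Tam (E D) = 2 ^ (1 + (inert D).card + 2 * (split D).card) := by
    rw [hE, add_assoc, ← exps]
    exact tam_prod hGq hpr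
  have hsq' : Squarefree (D : ℤ) := Int.squarefree_natCast.2 hsq
  have h4' : (D : ℤ) % 4 = 1 := by omega
  have h7' : ¬ (7 : ℤ) ∣ (D : ℤ) := fun h => h7 (by exact_mod_cast h)
  have hfac : RankZeroShaTwo D ↔ ¬ Factorisation D := by
    rw [two_iff hj, rz_fac hsq' h4' h7']
    unfold Fac Factorisation
    rw [show (((D : ℤ) : OO)) = ((D : ℕ) : O) by push_cast; rfl]
    exact Iff.rfl
  obtain ⟨Λ, h1, h2, h3⟩ := level hsq h4 h7 hj
  refine ⟨fun v => by rw [hE]; exact minimal_all hGq hpr v, ?_, htam, hfac, Λ, h1, ?_, ?_, ?_, ?_⟩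
  · rw [hst]
    exact Pool.Agent.Y698.SG.tnum_AX (CyclotomicField 5 ℚ) ℚ inq5.ns j
  · rw [hE]
    exact h2
  · rw [an_eq hj]
    exact Pool.Agent.Y698.int_of_val fun Γ _ v hv => (h3 Γ v hv).1
  · intro Γ _ v hv
    rw [an_eq hj, two_iff hj]
    exact h3 Γ v hv
  · intro hC
    have hC' := (two_iff hj).1 hC
    have hz : ∀ (Γ : Type) [LinearOrderedCommGroupWithZero Γ] (v : Valuation ℂ Γ), v 2 < 1 →
        v (Pool.Agent.Y698.SG.quoT ℚ j (Λ 1)) = 1 := fun Γ _ v hv => ((h3 Γ v hv).2).2 hC'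
    rw [an_eq hj]
    refine ⟨?_, ?_⟩
    · intro h0
      refine Pool.Agent.Y698.SG.exists_val2 fun Γ _ v hv => ?_
      have h5 := hz Γ v hv
      rw [h0] at h5
      unfold Pool.Agent.Y698.SG.quoT at h5
      rw [zero_mul, zero_mul, zero_div, map_zero] at h5
      exact zero_ne_one h5
    · obtain ⟨m₁, hm₁, i₁⟩ := Pool.Agent.Y698.int_of_val
        (x := Pool.Agent.Y698.SG.quoT ℚ j (Λ 1)) fun Γ _ v hv => (hz Γ v hv).le
      obtain ⟨m₂, hm₂, i₂⟩ := Pool.Agent.Y698.int_of_val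
        (x := (Pool.Agent.Y698.SG.quoT ℚ j (Λ 1))⁻¹) fun Γ _ v hv => by
          rw [map_inv₀, hz Γ v hv, inv_one]
      refine ⟨m₁ * m₂, hm₁.mul hm₂, ?_, ?_⟩
      · have e : ((m₁ * m₂ : ℤ) : ℂ) * Pool.Agent.Y698.SG.quoT ℚ j (Λ 1) =
            (m₂ : ℂ) * ((m₁ : ℂ) * Pool.Agent.Y698.SG.quoT ℚ j (Λ 1)) := by
          push_cast; ring
        rw [e]
        exact IsIntegral.mul (isIntegral_algebraMap (R := ℤ) (A := ℂ) (x := m₂)) i₁
      · have e : ((m₁ * m₂ : ℤ) : ℂ) * (Pool.Agent.Y698.SG.quoT ℚ j (Λ 1))⁻¹ =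
            (m₁ : ℂ) * ((m₂ : ℂ) * (Pool.Agent.Y698.SG.quoT ℚ j (Λ 1))⁻¹) := by
          push_cast; ring
        rw [e]
        exact IsIntegral.mul (isIntegral_algebraMap (R := ℤ) (A := ℂ) (x := m₁)) i₂

/-- the 2-part of the conjecture holds exactly in this case -/
theorem part_iff {D : ℕ} (h : Family D) : TwoPart D ↔ RankZeroShaTwo D := by
  obtain ⟨-, -, -, -, Λ, h6, h7, -, -, h8⟩ := core h
  constructor
  · rintro ⟨hf, hs, -⟩
    exact ⟨hf, fun x hx => hs 1 x (by rw [pow_one, two_nsmul]; exact hx)⟩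
  · intro hd
    obtain ⟨h9, h10⟩ := h8 hd
    exact ⟨hd.1, fun n x hx => sha_pow hd.2 n x hx, Λ, h6, h7, h9, h10⟩

theorem num_true (X : ℕ) : num (fun _ => True) X = (open Classical in
    ((Finset.Icc 1 X).filter fun D : ℕ => Squarefree D ∧ D % 4 = 1 ∧ ¬ 7 ∣ D).card) := by
  classical
  unfold num
  congr 1
  ext D
  simp only [Finset.mem_filter, and_true]
  exact Iff.rfl

theorem num_two (X : ℕ) : num TwoPart X = (open Classical in
    ((Finset.Icc 1 X).filter fun D : ℕ => (Squarefree D ∧ D % 4 = 1 ∧ ¬ 7 ∣ D) ∧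
      Pool.Agent.N818.TC.Rz (Pool.Agent.N818.TC.A D) (Pool.Agent.N818.TC.B D)).card) := by
  classical
  unfold num
  congr 1
  ext D
  simp only [Finset.mem_filter]
  refine and_congr_right fun _ => and_congr_right fun hF => ?_
  obtain ⟨j, hj⟩ : ∃ j, D = 1 + 4 * j := ⟨D / 4, by have := hF.2.1; omega⟩
  exact (part_iff hF).trans (two_iff hj)

end proof

/-- The constant `κ = 0.4194...`. -/
noncomputable def κ : ℝ := ∏' i : ℕ, (1 - (1 / 2 : ℝ) ^ (2 * i + 1))

/-- **The 2-part of the conjecture of Birch and Swinnerton-Dyer for the quadratic twists of `X_0(49)` by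
all squarefree `D ≡ 1 mod 4` prime to `7`.** -/
theorem result :
    (∀ D : ℕ, Family D →
      (∀ v : HeightOneSpectrum (𝓞 ℚ), MinimalAt (E D) v) ∧
      (∃ t : ℕ, Odd t ∧ torsOrder (E D) = 2 * t) ∧
      Tam (E D) = 2 ^ (1 + (inert D).card + 2 * (split D).card) ∧
      (RankZeroShaTwo D ↔ ¬ Factorisation D) ∧
      (TwoPart D ↔ RankZeroShaTwo D) ∧
      ∃ Λ : ℂ → ℂ, Differentiable ℂ Λ ∧
        (∀ s : ℂ, 2 < s.re → Λ s = (E D).LSeries s) ∧
        (∃ m : ℤ, Odd m ∧ _root_.IsIntegral ℤ (m * anOrder D (Λ 1))) ∧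
        ∀ (Γ : Type) [LinearOrderedCommGroupWithZero Γ] (v : Valuation ℂ Γ), v 2 < 1 →
          v (anOrder D (Λ 1)) ≤ 1 ∧ (v (anOrder D (Λ 1)) = 1 ↔ RankZeroShaTwo D)) ∧
    HasProportion TwoPart (κ / 2) ∧ 0.4194 < κ ∧ κ < 0.4195 := by
  refine ⟨fun D h => ?_, ?_, ?_⟩
  · obtain ⟨h1, h2, h3, h4, Λ, h6, h7, h8, h9, -⟩ := core h
    exact ⟨h1, h2, h3, h4, part_iff h, Λ, h6, h7, h8, h9⟩
  · have h := Pool.Agent.N818.TC.rz_prop
    refine h.congr fun X => ?_
    rw [num_true, num_two]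
  · have h := Pool.Agent.Y948.CQ.t_C2
    exact ⟨h.2.2.2.1, h.2.2.2.2⟩

end Pool.Agent.Results.MP_4a9ea6_nt.TwoPartDensityX49
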