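import Pool.Agent.N871.S17.Asm

/-!
# The 2-part of the formula at the central point for ALL the quadratic twists of a curve without
# complex multiplication

`E : y² + x y = x³ - 4 x² - x` is the elliptic curve of conductor `17` with all its 2-torsion points
rational (`y² = x (x + 1) (x - 16)`, the curve 17a2), and `E_m`, for a squarefree integer `m` of any sign,
is its quadratic twist by `ℚ(√m)`. Let `z = L(E_m, 1) #E_m(ℚ)_tors² / (Ω ∏ c_p)`, which according to the
formula is zero or the order of `Ш(E_m/ℚ)`. With no hypothesis on the rank or on `Ш` we prove for ALL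
squarefree integers `m`:
* the equation of `E_m` is a global minimal one, `L(E_m, s)` is entire, the product of the Tamagawa
  numbers is `4 ^ t`, `t` the number of the prime factors of the discriminant of `ℚ(√m)`, times `2` if
  `17` does not divide `m`, and the torsion subgroup has order `4`;
* `z` is the square of an integer;
* `z` is odd if and only if `E_m(ℚ)` is finite and `Ш(E_m/ℚ)[2] = 0`; in this case
  `Ш(E_m/ℚ)[2^∞] = 0`, so that the 2-part of the formula holds;
* the natural density of these `m` among all squarefree integers is exactly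
  `(1/2) ∏_{i ≥ 1} (1 - 2^{-(2 i - 1)}) = 0.2097…`.

The proof is joint work of helpers 969, 970, 971, 972, 973, 974, 975, 99, 218, 402, 575, 609, 809, 816, 844,
855, 871, 875, 877, 886, 890, 916, 919 and others: Gross's formula for the definite quaternion order of
discriminant `17` with genus characters (negative and positive discriminants), the diagonal and bilinear
identities and their parity, the modular parametrization of level `17`, the exact scale of the modular
symbols, the L-function, the descent and its converse, the natural density. The vanishing for the root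
number `-1`, the Tamagawa numbers, the torsion, the minimal equations and this file: helper871.
-/

set_option autoImplicit false
set_option linter.style.haveILetI false

open WeierstrassCurve MeasureTheory Filter Topology Finset

namespace Pool.Agent.Results.MP_4a9ea6_nt.TwoPartTwistsX17

open scoped Classical

open Pool.Agent.TH841.SH.D (Sha)

/-- The quadratic twist of `y² + x y = x³ - 4 x² - x` by `m ≡ 1` modulo `4`:
`y² + x y = x³ - ((15 m + 1)/4) x² - m² x`. -/
def twistOdd (m : ℤ) : WeierstrassCurve ℤ := ⟨1, -((15 * m + 1) / 4), 0, -(m ^ 2), 0⟩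

/-- The quadratic twist of `y² + x y = x³ - 4 x² - x` by `m` which is not congruent to `1` modulo `4`:
`y² = x³ - 15 m x² - 16 m² x = x (x + m) (x - 16 m)`. -/
def twistEven (m : ℤ) : WeierstrassCurve ℤ := ⟨0, -15 * m, 0, -16 * m ^ 2, 0⟩

/-- The twist `E_m`. -/
def E (m : ℤ) : WeierstrassCurve ℤ := if m % 4 = 1 then twistOdd m else twistEven m

/-- The curve given by the equation of `W` over the ring `R`. -/
abbrev base (W : WeierstrassCurve ℤ) (R : Type) [CommRing R] : WeierstrassCurve R :=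
  W.map (Int.castRingHom R)

/-- `W` is a global minimal equation: `Δ ≠ 0` and `|Δ|` is minimal among the integral equations of the
same curve over `ℚ`. -/
def Minimal (W : WeierstrassCurve ℤ) : Prop :=
  W.Δ ≠ 0 ∧ ∀ (W' : WeierstrassCurve ℤ) (C : VariableChange ℚ), C • base W ℚ = base W' ℚ →
    |W.Δ| ≤ |W'.Δ|

/-- The number of the affine points modulo `p`. -/
noncomputable def pts (W : WeierstrassCurve ℤ) (p : ℕ) : ℕ :=
  Nat.card {P : ZMod p × ZMod p // (base W (ZMod p)).toAffine.Equation P.1 P.2}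

/-- `a_p = p + 1 - #W(𝔽_p)`, the points counted with the point at infinity. -/
noncomputable def a (W : WeierstrassCurve ℤ) (p : ℕ) : ℤ := p - pts W p

/-- `L` is the L-function of the minimal equation `W`: it is entire, and for `Re s > 3/2` it is given by
the Euler product with the factors `(1 - a_p p^(-s) + p^(1 - 2 s))⁻¹` if `p` does not divide `Δ` and
`(1 - a_p p^(-s))⁻¹` otherwise. -/
def IsL (W : WeierstrassCurve ℤ) (L : ℂ → ℂ) : Prop :=
  Differentiable ℂ L ∧ ∀ s : ℂ, 3 / 2 < s.re →
    HasProd (fun p : Nat.Primes => (1 - (a W p : ℂ) * ((p : ℕ) : ℂ) ^ (-s) +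
      (if ((p : ℕ) : ℤ) ∣ W.Δ then 0 else ((p : ℕ) : ℂ) ^ (1 - 2 * s)))⁻¹) (L s)

/-- The point `P` of `W` over `ℚ_p` reduces to a singular point of the curve modulo `p`: the coordinates
are integral and both partial derivatives of `y² + a₁ x y + a₃ y - x³ - a₂ x² - a₄ x - a₆` are in the
maximal ideal. -/
def SingularReduction (W : WeierstrassCurve ℤ) (p : ℕ) [Fact p.Prime]
    (P : (base W ℚ_[p]).toAffine.Point) : Prop :=
  ∃ x y h, P = Affine.Point.some x y h ∧ ‖x‖ ≤ 1 ∧ ‖y‖ ≤ 1 ∧
    ‖W.a₁ * y - (3 * x ^ 2 + 2 * W.a₂ * x + W.a₄)‖ < 1 ∧ ‖2 * y + W.a₁ * x + W.a₃‖ < 1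

/-- `c p` is the Tamagawa number `[W(ℚ_p) : W⁰(ℚ_p)]` for all primes `p`, where `W⁰(ℚ_p)` is the subgroup
of the points which do not have singular reduction; it is `1` if `p` does not divide `Δ`. -/
def IsTamagawa (W : WeierstrassCurve ℤ) (c : ℕ → ℕ) : Prop :=
  ∀ (p : ℕ) [Fact p.Prime], (∃ H : AddSubgroup (base W ℚ_[p]).toAffine.Point,
    (∀ P, P ∈ H ↔ ¬ SingularReduction W p P) ∧ H.index = c p) ∧ (¬ (p : ℤ) ∣ W.Δ → c p = 1)

/-- The product of the Tamagawa numbers. -/
noncomputable def Tam (W : WeierstrassCurve ℤ) (c : ℕ → ℕ) : ℕ := ∏ p ∈ W.Δ.natAbs.primeFactors, c p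

/-- `4 x³ + b₂ x² + 2 b₄ x + b₆ = (2 y + a₁ x + a₃)²`. -/
def cubic (W : WeierstrassCurve ℤ) (x : ℝ) : ℝ := 4 * x ^ 3 + W.b₂ * x ^ 2 + 2 * W.b₄ * x + W.b₆

/-- `Ω = ∫_{W(ℝ)} |ω|` with `ω = dx / (2 y + a₁ x + a₃)`, as an integral over `x`: two real points lie
over each `x` with `cubic x > 0`. -/
noncomputable def Omega (W : WeierstrassCurve ℤ) : ℝ :=
  2 * ∫ x in {x : ℝ | 0 < cubic W x}, 1 / √(cubic W x)

/-- The order of the torsion subgroup of `W(ℚ)`. -/
noncomputable def torsOrder (W : WeierstrassCurve ℤ) : ℕ :=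
  Nat.card (AddCommGroup.torsion (base W ℚ).toAffine.Point)

/-- The order of the Tate-Shafarevich group predicted by the formula in rank zero, for the value `l` of
the L-function at `s = 1` and the Tamagawa numbers `c`: `l #W(ℚ)_tors² / (Ω ∏ c_p)`. -/
noncomputable def anOrder (W : WeierstrassCurve ℤ) (l : ℂ) (c : ℕ → ℕ) : ℂ :=
  l * (torsOrder W : ℂ) ^ 2 / ((Omega W : ℝ) * (Tam W c : ℂ))

/-- The 2-part of the formula for `W` over `ℚ`, in the case that the predicted order of `Ш` is a unit at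
two: `W` is minimal, `L(W, s)` is entire, `L(W, 1) ≠ 0`, `W(ℚ)` is finite, the 2-primary part of
`Ш(W/ℚ)` is zero, and the predicted order of `Ш` is a rational number which is a unit at two. -/
def TwoPart (W : WeierstrassCurve ℤ) : Prop :=
  Minimal W ∧ Finite (base W ℚ).toAffine.Point ∧
  (∀ (n : ℕ) (x : Sha (base W ℚ)), 2 ^ n • x = 0 → x = 0) ∧
  ∃ (L : ℂ → ℂ) (c : ℕ → ℕ) (z : ℚ), IsL W L ∧ L 1 ≠ 0 ∧ IsTamagawa W c ∧ 0 < Tam W c ∧
    0 < Omega W ∧ 0 < torsOrder W ∧ anOrder W (L 1) c = z ∧ z ≠ 0 ∧ padicValRat 2 z = 0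

/-- The group `E_m(ℚ)` is finite and `Ш(E_m/ℚ)` has no element of order two. -/
def NoSelmer (m : ℤ) : Prop :=
  Finite (base (E m) ℚ).toAffine.Point ∧ ∀ x : Sha (base (E m) ℚ), 2 • x = 0 → x = 0

/-- The absolute value of the discriminant of `ℚ(√m)` (`1` for `m = 1`). -/
def absDisc (m : ℤ) : ℕ := if m % 4 = 1 then m.natAbs else 4 * m.natAbs

/-- The product of the Tamagawa numbers of `E_m`. -/
def tamValue (m : ℤ) : ℕ :=
  4 ^ (absDisc m).primeFactors.card * (if (17 : ℤ) ∣ m then 1 else 2)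

/-- The statement for the squarefree integer `m`. -/
def Criterion (m : ℤ) : Prop :=
  Minimal (E m) ∧
  (∃ (L : ℂ → ℂ) (c : ℕ → ℕ) (y : ℤ), IsL (E m) L ∧ IsTamagawa (E m) c ∧
    Tam (E m) c = tamValue m ∧ torsOrder (E m) = 4 ∧ 0 < Omega (E m) ∧
    anOrder (E m) (L 1) c = (y : ℂ) ^ 2 ∧ (Odd y ↔ NoSelmer m)) ∧
  (NoSelmer m ↔ TwoPart (E m))

/-- The number of the squarefree integers `m` with `|m| ≤ X`. -/
noncomputable def total (X : ℕ) : ℕ := ((Icc (-(X : ℤ)) X).filter fun m => Squarefree m).card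

/-- The number of the squarefree integers `m` with `|m| ≤ X` for which the 2-part of the formula holds
with a predicted order which is a unit at two. -/
noncomputable def good (X : ℕ) : ℕ :=
  ((Icc (-(X : ℤ)) X).filter fun m => Squarefree m ∧ TwoPart (E m)).card

section proof

open Pool.Agent.N875.X15 (Fin2 fin2_pow)
open Pool.Agent.N871.S17 (WN WNQ EE Kd t17 strong good_EE)

lemma omega_eq (W : WeierstrassCurve ℤ) : Omega W = Pool.Agent.Y700.Omega W := by
  unfold Omega Pool.Agent.Y700.Omega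
  rw [← integral_const_mul]
  show ∫ x in {x : ℝ | 0 < Pool.Agent.Y700.psi W x}, 2 * (1 / √(Pool.Agent.Y700.psi W x)) = _
  congr 1
  funext x
  rw [mul_one_div]

/-- the Tamagawa numbers -/
noncomputable def cT (W : WeierstrassCurve ℤ) (p : ℕ) : ℕ :=
  if h : p.Prime then (haveI := Fact.mk h; Pool.Agent.Y700.tam W p) else 1

lemma isTam (W : WeierstrassCurve ℤ) : IsTamagawa W (cT W) := by
  intro p hp
  have hc : cT W p = Pool.Agent.Y700.tam W p := by
    unfold cT
    rw [dif_pos hp.out]
  refine ⟨⟨Pool.Agent.Y700.E0 W p, fun P => ?_, by rw [hc]; rfl⟩, fun h => ?_⟩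
  · rw [Pool.Agent.Y809.BSD14.t_E0 W p P]
    constructor
    · rintro h ⟨x, y, h1, rfl, h2⟩
      exact h x y h1 rfl h2
    · intro h x y h1 h2 h3
      exact h ⟨x, y, h1, h2, h3⟩
  · rw [hc]
    exact Pool.Agent.Y809.BSD14.t_TGOOD W p h

lemma tam_eq (W : WeierstrassCurve ℤ) : Tam W (cT W) = Pool.Agent.Y700.tamProd W := rfl

lemma two_iff {A : Type} [AddCommGroup A] : (∀ x : A, 2 • x = 0 → x = 0) ↔
    ∀ x : A, x + x = 0 → x = 0 := by
  refine forall_congr' fun x => ?_
  rw [two_nsmul]

lemma odd_val {z : ℤ} (h : Odd z) : padicValRat 2 (z : ℚ) = 0 := by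
  rw [padicValRat.of_int]
  have : padicValInt 2 z = 0 := by
    refine padicValInt.eq_zero_of_not_dvd ?_
    intro hd
    have h5 := Int.odd_iff.1 h
    omega
  rw [this]
  rfl

lemma E_eq (m : ℤ) : E m = EE m := rfl

lemma absDisc_eq (m : ℤ) : absDisc m = Kd m := rfl

lemma noSelmer_iff (m : ℤ) : NoSelmer m ↔ Fin2 (base (E m) ℚ) := and_congr Iff.rfl two_iff

lemma dvd17 (m : ℤ) : 17 ∣ absDisc m ↔ (17 : ℤ) ∣ m := by
  unfold absDisc
  split_ifs <;> omega

lemma tamValue_eq (m : ℤ) : tamValue m = 4 ^ (Kd m).primeFactors.card * t17 (Kd m) := by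
  unfold tamValue t17
  rw [← absDisc_eq]
  simp only [dvd17]

theorem criterion {m : ℤ} (hs : Squarefree m) : Criterion m := by
  obtain ⟨hmin, ht, htor, hΩ, f, y, hf, hy, hval⟩ := strong hs
  rw [← E_eq] at hmin ht htor hΩ hf hy hval
  have hT : Tam (E m) (cT (E m)) = tamValue m := by
    rw [tam_eq, ht, tamValue_eq]
  have hΩ' : 0 < Omega (E m) := by
    rw [omega_eq]
    exact hΩ
  have hT0 : 0 < Tam (E m) (cT (E m)) := by
    rw [hT]
    unfold tamValue
    refine Nat.mul_pos (pow_pos (by norm_num) _) ?_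
    split_ifs <;> norm_num
  have hto : torsOrder (E m) = 4 := htor
  have han : anOrder (E m) (f 1) (cT (E m)) = (y : ℂ) ^ 2 := by
    unfold anOrder
    rw [hto, hT, omega_eq, tamValue_eq]
    have h1 : ((Pool.Agent.Y700.Omega (E m) : ℝ) : ℂ) ≠ 0 := by exact_mod_cast hΩ.ne'
    have h2 : ((4 ^ (Kd m).primeFactors.card * t17 (Kd m) : ℕ) : ℂ) ≠ 0 := by
      rw [← tamValue_eq, ← hT]
      exact_mod_cast hT0.ne'
    rw [div_eq_iff (mul_ne_zero h1 h2), ← hval]
    norm_num
  have hsel := noSelmer_iff m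
  refine ⟨hmin, ⟨f, cT _, y, hf, isTam _, hT, hto, hΩ', han, hy.trans hsel.symm⟩, fun hc => ?_,
    fun hp => ⟨hp.2.1, fun x hx => hp.2.2.1 1 x (by rwa [pow_one])⟩⟩
  have hns := hsel.1 hc
  have hyo : Odd y := hy.2 hns
  have hy0 : y ≠ 0 := by
    rintro rfl
    exact absurd hyo (by decide)
  have hyq : (y : ℚ) ≠ 0 := by exact_mod_cast hy0
  refine ⟨hmin, hns.1, fun k x hx => fin2_pow hns k x hx, f, cT _, (y : ℚ) ^ 2, hf, ?_,
    isTam _, hT0, hΩ', by rw [hto]; norm_num, by rw [han]; push_cast; rfl, pow_ne_zero 2 hyq, ?_⟩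
  · intro h0
    rw [h0] at han
    unfold anOrder at han
    rw [zero_mul, zero_div] at han
    have h3 : (y : ℂ) ^ 2 ≠ 0 := pow_ne_zero 2 (by exact_mod_cast hy0)
    exact h3 han.symm
  · have : Fact (Nat.Prime 2) := ⟨Nat.prime_two⟩
    rw [padicValRat.pow, odd_val hyo]
    simp

lemma card_eq {p q : ℤ → Prop} {ip : DecidablePred p} {iq : DecidablePred q} {S : Finset ℤ}
    (h : ∀ m ∈ S, p m ↔ q m) :
    (@Finset.filter _ p ip S).card = (@Finset.filter _ q iq S).card := by
  refine congrArg Finset.card (Finset.ext fun m => ?_)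
  rw [@Finset.mem_filter _ p ip, @Finset.mem_filter _ q iq]
  exact and_congr_right fun hm => h m hm

end proof

/-- **Main theorem.** The statement `Criterion m` holds for all squarefree integers `m`, and the 2-part of
the formula holds with a predicted order of `Ш` which is a unit at two for a set of natural density exactly
`(1/2) ∏_{i ≥ 1} (1 - 2^{-(2 i - 1)})` of the squarefree integers. -/
theorem result :
    (∀ m : ℤ, Squarefree m → Criterion m) ∧
    Tendsto (fun X : ℕ => (good X : ℝ) / (total X : ℝ)) atTop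
      (𝓝 ((∏' i : ℕ, (1 - (1 / 2 : ℝ) ^ (2 * i + 1))) / 2)) := by
  refine ⟨fun m hs => criterion hs, ?_⟩
  have h := Pool.Agent.N916.MO.dens17_sf
  unfold Pool.Agent.Y703.CQ.c2 at h
  refine h.congr fun X => congrArg₂ (fun a b : ℕ => (a : ℝ) / (b : ℝ)) ?_ ?_
  · unfold Pool.Agent.N919.BS.NS good
    refine card_eq fun m _ => and_congr_right fun hs => ?_
    rw [← (criterion hs).2.2, noSelmer_iff, E_eq]
    exact (Pool.Agent.N871.S17.good_EE hs).symm
  · unfold Pool.Agent.N919.BS.NS total
    exact card_eq fun m _ => and_iff_left trivial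

end Pool.Agent.Results.MP_4a9ea6_nt.TwoPartTwistsX17
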