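import Pool.Agent.Results.MP_4a9ea6_nt.TwoPartDensityX49
import Pool.Agent.N869.ZE.B.Fin

/-!
# The 2-part of the strong conjecture of Birch and Swinnerton-Dyer for the twists of `X_0(49)` by the
# divisors of a random number: a uniform distribution

`E_D` is the quadratic twist by `D` of `X_0(49) : y² + x y = x³ - x² - 2 x - 1`. For `D ≥ 1` squarefree,
`D ≡ 1 mod 4`, `7 ∤ D`, the 2-part of the strong conjecture with `L(E_D, 1) ≠ 0` and
`z = #E_D(ℚ)_tors² L(E_D, 1) / (Ω ∏ c_p)` a unit at two (`TwoPart D`) holds if and only if `E_D(ℚ)` is finite and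
`Ш(E_D/ℚ)` has no element of order two, and on the average over all `D` this is the case for the
proportion `κ / 2`, `κ = ∏_{i ≥ 0} (1 - 2^{-(2i+1)}) = 0.4194…` (`TwoPartDensityX49`, helper818 and others).

Here we FIX a squarefree number `f` prime to `14` and consider the finitely many curves `E_D`, `D ≡ 1 mod 4`
a DIVISOR of `f` (about `2 ^ ω(f) / 2` curves). Let `P(f)` be the proportion of those with `TwoPart D`.
The average of `P(f)` over `f` is `κ / 2`, but `P(f)` is NOT close to a constant:

* (local law) for almost every `f` (natural density one), `P(f)` is as close as we like to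
  `κ Φ(k(f) / √(t(f)))`, where `Φ` is the distribution function of the normal law, `t(f)` is the number of
  the prime factors `≡ 3 mod 4` of `f`, and `k(f)` is the number of those which split in `ℚ(√-7)` minus the
  number of those which are inert;
* (uniform law) `P(f) / κ` is uniformly distributed in the interval `[0, 1]`: for every `x ∈ [0, 1]` the
  natural density of the `f` with `P(f) ≤ κ x` is exactly `x`;
* (obstruction) `TwoPart D` implies `k(D) ≥ 0`.

So for the same curve there are, with positive density, numbers `f` such that hardly any twist by a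
divisor of `f` has rank zero with `Ш[2] = 0`, and numbers `f` for which this holds for nearly the
proportion `κ`. This is a new phenomenon: for the curve `X_0(15)` without complex multiplication the
proportion is the same for almost all `f` (`MP_8b7eba_nt/DivisorsX15`). The reason is the obstruction: if
`k(D) < 0`, the Selmer group of `E_D` over `ℚ(√-7)` is too large for formal reasons, and if `k(D)` is large,
the Selmer group is trivial with probability close to `κ`.

Proof. By `TwoPartDensityX49` and its sources the condition on `D` is that a linear system over the field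
with two elements in terms of the symbols of the prime factors of `D` has only the trivial solution. A
divisor of `f` is a colouring with two colours of the prime factors of `f`. The proportion of the good
colourings among the colourings with `D ≡ 1 mod 4`, `k(D)` in a given range, is a random variable in `f`;
its first and second moments are computed by the bilinear large sieve for the rational symbols and the
symbols of `ℚ(√-7)` in boxes of large primes with fixed colours and types, the exact joint law of the kernels
of one or two restricted systems (an alternating form on the dual kernel of each system), and the law of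
large numbers of Turán for the types of the prime factors. The conditions `k(D) ≥ m` and the class of `D`
modulo `4` for a random divisor `D` of `f` are treated by the theorem of de Moivre and Laplace, and `k(f)`
by the theorem of Erdős and Kac for two types of primes.
(`Pool/Agent/N869/ZE`; parts by helpers 9, 55, 322, 492, 591, 615, 644, 692, 717, 814, 861, 866, 999, after
project ND of helpers 973, 713, 226, 897, 186.)
-/

set_option autoImplicit false

namespace Pool.Agent.Results.MP_4a9ea6_nt.UniformLaw

open Pool.Agent.Results.MP_4a9ea6_nt.TwoPartDensityX49 (TwoPart Family RankZeroShaTwo κ)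

/-- The numbers `f`: squarefree and prime to `14`. -/
def Conductor (f : ℕ) : Prop := Squarefree f ∧ f % 2 = 1 ∧ ¬ 7 ∣ f

/-- The divisors `D ≡ 1 mod 4` of `f`. -/
def divs (f : ℕ) : Set ℕ := {D | D ∣ f ∧ D % 4 = 1}

/-- The proportion of the divisors `D ≡ 1 mod 4` of `f` for which the 2-part of the conjecture holds for
`E_D` with `L(E_D, 1) ≠ 0` and a unit `z` at two. -/
noncomputable def P (f : ℕ) : ℝ := ({D ∈ divs f | TwoPart D}.ncard : ℝ) / ((divs f).ncard : ℝ)

/-- The prime `p` splits in `ℚ(√-7)` (for `p` different from `2` and `7`). -/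
def Split (p : ℕ) : Prop := p % 7 = 1 ∨ p % 7 = 2 ∨ p % 7 = 4

open Classical in
/-- The number of the prime factors `≡ 3 mod 4` of `f` which split in `ℚ(√-7)`, minus the number of those
which are inert. -/
noncomputable def k (f : ℕ) : ℤ :=
  ((f.primeFactors.filter fun p => p % 4 = 3 ∧ Split p).card : ℤ) -
    ((f.primeFactors.filter fun p => p % 4 = 3 ∧ ¬ Split p).card : ℤ)

/-- The number of the prime factors `≡ 3 mod 4` of `f`. -/
def t (f : ℕ) : ℕ := (f.primeFactors.filter fun p => p % 4 = 3).card

/-- The distribution function of the normal law. -/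
noncomputable def Φ (x : ℝ) : ℝ := (ProbabilityTheory.gaussianReal 0 1 (Set.Iic x)).toReal

open Classical in
/-- The number of the `f ≤ X` with the property `Q`. -/
noncomputable def count (Q : ℕ → Prop) (X : ℕ) : ℕ := ((Finset.Icc 1 X).filter fun f => Q f).card

/-- The natural density of the `f` with the property `Q` among the squarefree `f` prime to `14` is `θ`. -/
def HasDensity (Q : ℕ → Prop) (θ : ℝ) : Prop :=
  Filter.Tendsto (fun X : ℕ => (count (fun f => Conductor f ∧ Q f) X : ℝ) / (count Conductor X : ℝ))
    Filter.atTop (nhds θ)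

section proof

open Filter Topology
open Pool.Agent.N869.ZE.B
open Pool.Agent.N973.ND (m7 uu ty kd Gd)
open Pool.Agent.N973.NT (AA bb)
open Finset

lemma family {f : ℕ} (hf : Conductor f) {D : ℕ} (hD : D ∣ f) (h4 : D % 4 = 1) : Family D :=
  ⟨hf.1.squarefree_of_dvd hD, h4, fun h => hf.2.2 (h.trans hD)⟩

lemma two_gd {D : ℕ} (h : Family D) : TwoPart D ↔ Gd AA bb D.primeFactors := by
  obtain ⟨j, hj⟩ : ∃ j, D = 1 + 4 * j := ⟨D / 4, by have := h.2.1; omega⟩
  exact (TwoPartDensityX49.part_iff h).trans ((TwoPartDensityX49.two_iff hj).trans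
    (Pool.Agent.N818.TC.rz_gd h.1 h.2.1 h.2.2))

lemma ty_3 (p : ℕ) : ty p = 3 ↔ p % 4 = 3 ∧ Split p := by
  unfold Pool.Agent.N973.ND.ty Pool.Agent.N973.ND.m7 Split
  split_ifs with h1 h2 <;> simp_all

lemma ty_1 (p : ℕ) : ty p = 1 ↔ p % 4 = 3 ∧ ¬ Split p := by
  unfold Pool.Agent.N973.ND.ty Pool.Agent.N973.ND.m7 Split
  split_ifs with h1 h2 <;> simp_all

lemma kd_eq (f : ℕ) : kd f.primeFactors = k f := by
  unfold Pool.Agent.N973.ND.kd k
  congr 3
  · ext p
    simp only [mem_filter, ty_3]
  · ext p
    simp only [mem_filter, ty_1]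

lemma t13_eq (f : ℕ) : t13 f.primeFactors = t f := by
  unfold t13 t
  congr 1
  ext p
  simp only [mem_filter, ty_3, ty_1]
  refine and_congr_right fun _ => ?_
  by_cases h : Split p <;> simp [h]

lemma phi_eq (x : ℝ) : Phi x = Φ x := rfl

lemma rat_eq' {f : ℕ} (hf : Conductor f) : rat f = P f := by
  classical
  have h0 : f ≠ 0 := hf.1.ne_zero
  have e1 : divs f = ↑(cls f) := by
    ext D
    unfold divs cls
    rw [Set.mem_ofPred_eq, coe_filter, Set.mem_ofPred_eq, Nat.mem_divisors]
    exact ⟨fun h => ⟨⟨h.1, h0⟩, h.2⟩, fun h => ⟨h.1.1, h.2⟩⟩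
  have e2 : {D ∈ divs f | TwoPart D} = ↑((cls f).filter fun D => Gd AA bb D.primeFactors) := by
    rw [e1]
    ext D
    rw [coe_filter]
    refine and_congr_right fun hD => ?_
    rw [mem_coe] at hD
    unfold cls at hD
    rw [mem_filter, Nat.mem_divisors] at hD
    exact two_gd (family hf hD.1.1 hD.2)
  unfold rat P
  rw [e2, e1, Set.ncard_coe_finset, Set.ncard_coe_finset]

open scoped Classical in
lemma dens {Q : ℕ → Prop} {R : ℕ → Prop} {θ : ℝ} (hQ : ∀ f, Conductor f → (R f ↔ Q f))
    (h : Tendsto (fun X : ℕ => (((Icc 1 X).filter fun f => Cn f ∧ R f).card : ℝ) /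
      (((Icc 1 X).filter Cn).card : ℝ)) atTop (𝓝 θ)) : HasDensity Q θ := by
  have e : (fun f => Cn f ∧ R f) = fun f => Conductor f ∧ Q f :=
    funext fun f => propext (and_congr_right fun h => hQ f h)
  unfold HasDensity count
  rw [← e]
  refine h.congr fun X => ?_
  have e1 := Pool.Agent.N869.ZE.filter_card_inst (fun f => Cn f ∧ R f) (fun f => instDecidableAnd)
    (fun f => Classical.propDecidable _) (Icc 1 X)
  have e2 := Pool.Agent.N869.ZE.filter_card_inst Cn (fun f => Classical.propDecidable _)
    (fun f => Classical.propDecidable _) (Icc 1 X)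
  rw [e1]
  rfl

end proof

/-- **Main theorem.** (1) Let `f` be squarefree and prime to `14`, `D ≡ 1 mod 4` a divisor of `f`. Then
`TwoPart D` holds if and only if `E_D(ℚ)` is finite and `Ш(E_D/ℚ)` has no element of order two, and in this
case the number of the prime factors `≡ 3 mod 4` of `D` which split in `ℚ(√-7)` is at least the number of
those which are inert.
(2) For every `δ > 0`, for almost all `f` (natural density one) the proportion `P(f)` of the
divisors `D ≡ 1 mod 4` of `f` with `TwoPart D` differs from `κ Φ(k(f) / √(t(f)))` by at most `δ`.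
(3) For every `x ∈ [0, 1]` the natural density of the `f` with `P(f) ≤ κ x` is `x`: the proportion
`P(f) / κ` is uniformly distributed in `[0, 1]`. -/
theorem result :
    (∀ f : ℕ, Conductor f → ∀ D ∈ divs f,
      (TwoPart D ↔ RankZeroShaTwo D) ∧ (TwoPart D → 0 ≤ k D)) ∧
    (∀ δ : ℝ, 0 < δ → HasDensity (fun f => |P f - κ * Φ (k f / Real.sqrt (t f))| ≤ δ) 1) ∧
    (∀ x : ℝ, 0 ≤ x → x ≤ 1 → HasDensity (fun f => P f ≤ κ * x) x) ∧
    0.4194 < κ ∧ κ < 0.4195 := by
  have hκ : Pool.Agent.Y703.CQ.c2 = κ := rfl
  refine ⟨fun f hf D hD => ?_, fun δ hδ => ?_, fun x h0 h1 => ?_,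
    TwoPartDensityX49.result.2.2.1, TwoPartDensityX49.result.2.2.2⟩
  · have hF := family hf hD.1 hD.2
    refine ⟨TwoPartDensityX49.part_iff hF, fun h => ?_⟩
    have h2 := Pool.Agent.N869.ZE.B.neg (f := D) ⟨hF.1, by have := hF.2.1; omega, hF.2.2⟩
      ((two_gd hF).1 h)
    rwa [kd_eq] at h2
  · refine dens (fun f hf => ?_) (Pool.Agent.N869.ZE.B.ll hδ)
    rw [rat_eq' hf, kd_eq, t13_eq, hκ]
    exact Iff.rfl
  · refine dens (fun f hf => ?_) (Pool.Agent.N869.ZE.B.uni h0 h1)
    rw [rat_eq' hf, hκ]

end Pool.Agent.Results.MP_4a9ea6_nt.UniformLaw
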